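import Mathlib

/-! A strictly convex plane norm with `‖X - r u‖ = ‖r X - u‖` on the unit circle is Euclidean. -/

set_option autoImplicit false
set_option maxHeartbeats 1000000

namespace Pool.Agent.P.MP_874adf_gt

open Set Filter Topology

lemma exists_pow_near {r θ : ℝ} (r0 : 0 < r) (r1 : r < 1) (h0 : 0 < θ) (h1 : θ < 1) :
    ∃ k n : ℕ, 0 < k ∧ θ ≤ (1 + r) ^ k * r ^ n ∧ (1 + r) ^ k * r ^ n ≤ 1 := by
  set α := Real.log (1 + r) with hα
  set γ := -Real.log r with hγ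
  have α0 : 0 < α := Real.log_pos (by linarith)
  have γ0 : 0 < γ := neg_pos.2 (Real.log_neg r0 r1)
  have ε0 : 0 < -Real.log θ := neg_pos.2 (Real.log_neg h0 h1)
  have key : ∃ k n : ℕ, 0 < k ∧ Real.log θ ≤ k * α - n * γ ∧ k * α - n * γ ≤ 0 := by
    obtain ⟨N, hN⟩ := exists_nat_gt (γ / (-Real.log θ))
    have N0 : 0 < N := by
      have : (0 : ℝ) < N := lt_trans (by positivity) hN
      exact_mod_cast this
    obtain ⟨j, k, k0, -, hjk⟩ := Real.exists_int_int_abs_mul_sub_le (α / γ) N0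
    have hN1 : (0 : ℝ) < N + 1 := by positivity
    have N1 : (1 : ℝ) ≤ N := by exact_mod_cast N0
    have k0' : (0 : ℝ) < k := by exact_mod_cast k0
    obtain ⟨a1, a2⟩ := abs_le.1 hjk
    have hlt : 1 / ((N : ℝ) + 1) < 1 := by rw [div_lt_one hN1]; linarith
    have j0 : 0 ≤ j := by
      have : (-1 : ℝ) < j := by
        have : 0 < k * (α / γ) := by positivity
        linarith
      have : (-1 : ℤ) < j := by exact_mod_cast this
      omega
    lift k to ℕ using k0.le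
    lift j to ℕ using j0
    push_cast at a1 a2 k0'
    have e : (k : ℝ) * α - j * γ = (k * (α / γ) - j) * γ := by field_simp
    have b0 : 1 / ((N : ℝ) + 1) * γ ≤ -Real.log θ := by
      rw [div_lt_iff₀ ε0] at hN
      rw [one_div, inv_mul_le_iff₀ hN1]; nlinarith
    have b1 : (k : ℝ) * α - j * γ ≤ 1 / ((N : ℝ) + 1) * γ := by
      rw [e]; exact mul_le_mul_of_nonneg_right a2 γ0.le
    have b2 : -(1 / ((N : ℝ) + 1) * γ) ≤ (k : ℝ) * α - j * γ := by
      rw [e, ← neg_mul]; exact mul_le_mul_of_nonneg_right a1 γ0.le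
    have kpos : 0 < k := by exact_mod_cast k0'
    rcases le_or_gt ((k : ℝ) * α - j * γ) 0 with h | h
    · exact ⟨k, j, kpos, by linarith, h⟩
    · set δ := (k : ℝ) * α - j * γ with hδ
      have δγ : δ ≤ γ := by nlinarith
      set l := ⌊γ / δ⌋₊ with hl
      have l1 : (l : ℝ) ≤ γ / δ := Nat.floor_le (by positivity)
      have l2 : γ / δ < l + 1 := Nat.lt_floor_add_one _
      have l0 : 0 < l := Nat.floor_pos.2 ((one_le_div h).2 δγ)
      rw [le_div_iff₀ h] at l1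
      rw [div_lt_iff₀ h] at l2
      have e2 : ((l * k : ℕ) : ℝ) * α - ((l * j + 1 : ℕ) : ℝ) * γ = l * δ - γ := by
        rw [hδ]; push_cast; ring
      exact ⟨l * k, l * j + 1, Nat.mul_pos l0 kpos, by rw [e2]; linarith, by rw [e2]; linarith⟩
  obtain ⟨k, n, k0, a1, a2⟩ := key
  have e : (1 + r) ^ k * r ^ n = Real.exp (k * α - n * γ) := by
    rw [hγ, mul_neg, sub_neg_eq_add, Real.exp_add, Real.exp_nat_mul, Real.exp_nat_mul, hα,
      Real.exp_log (by linarith), Real.exp_log r0]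
  refine ⟨k, n, k0, ?_, ?_⟩
  · rw [e, ← Real.exp_log h0]; exact Real.exp_le_exp.2 a1
  · rw [e]; exact Real.exp_le_one_iff.2 a2

lemma descent {r b : ℝ} (r0 : 0 < r) (r1 : r < 1) (hb : 0 < b) {P : ℝ → Prop}
    (h : ∀ y, P y → P (r * y)) (h' : ∀ y, P y → b ≤ |y|) {y : ℝ} (hy : P y) : False := by
  have ind : ∀ k : ℕ, P (r ^ k * y) := by
    intro k
    induction k with
    | zero => simpa using hy
    | succ k ih => rw [pow_succ', mul_assoc]; exact h _ ih
  have T : Tendsto (fun k : ℕ => |r ^ k * y|) atTop (𝓝 |0 * y|) :=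
    ((tendsto_pow_atTop_nhds_zero_of_lt_one r0.le r1).mul_const y).abs
  rw [zero_mul, abs_zero] at T
  obtain ⟨k, hk⟩ := (T.eventually (gt_mem_nhds hb)).exists
  exact absurd (h' _ (ind k)) (not_le.2 hk)

noncomputable def Ph (x y : ℝ) : ℝ := (1 - x ^ 2) / y ^ 2

lemma Ph_step {r m x y : ℝ} (r0 : 0 < r) (hm : 0 < m) (hy : y ≠ 0) :
    Ph x y = r ^ 2 * Ph (r * x - (1 - r ^ 2) / m) (r * y) + (1 - r ^ 2) * Ph (r + m * x) (m * y) := by
  unfold Ph; field_simp; ring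

variable {E : Type*} [NormedAddCommGroup E] [NormedSpace ℝ E]

structure St (u w : E) (r : ℝ) : Prop where
  r0 : 0 < r
  r1 : r < 1
  hu : ‖u‖ = 1
  hw : ‖w‖ = 1
  xle : ∀ x y : ℝ, |x| ≤ ‖x • u + y • w‖
  ap : ∀ X : E, ‖X‖ = 1 → ‖X - r • u‖ = ‖r • X - u‖

namespace St
variable {u w : E} {r : ℝ} (S : St u w r)
include S

lemma flip : St u (-w) r :=
  ⟨S.r0, S.r1, S.hu, by rw [norm_neg, S.hw], fun x y => by simpa using S.xle x (-y), S.ap⟩

lemma le_add (x y : ℝ) : ‖x • u + y • w‖ ≤ |x| + |y| := by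
  refine (norm_add_le _ _).trans ?_
  rw [norm_smul, norm_smul, S.hu, S.hw]; simp

lemma yle (x y : ℝ) : |y| ≤ 2 * ‖x • u + y • w‖ := by
  have h := norm_sub_le (x • u + y • w) (x • u)
  rw [add_sub_cancel_left, norm_smul, norm_smul, S.hu, S.hw, mul_one, mul_one, Real.norm_eq_abs,
    Real.norm_eq_abs] at h
  linarith [S.xle x y]

omit S in
lemma neg (x y : ℝ) : ‖(-x) • u + (-y) • w‖ = ‖x • u + y • w‖ := by
  rw [← norm_neg]; congr 1; module

lemma compact (b : ℝ) : IsCompact {p : ℝ × ℝ | ‖p.1 • u + p.2 • w‖ = 1 ∧ b ≤ |p.2|} := by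
  apply Metric.isCompact_of_isClosed_isBounded
  · exact (isClosed_eq (f := fun p : ℝ × ℝ => ‖p.1 • u + p.2 • w‖) (by fun_prop) continuous_const).inter
      (isClosed_le (g := fun p : ℝ × ℝ => |p.2|) continuous_const (by fun_prop))
  · rw [Metric.isBounded_iff_subset_closedBall 0]
    refine ⟨2, fun p hp => ?_⟩
    rw [mem_closedBall_zero_iff, Prod.norm_def, max_le_iff, Real.norm_eq_abs, Real.norm_eq_abs]
    have a1 := S.xle p.1 p.2
    have a2 := S.yle p.1 p.2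
    rw [hp.1] at a1 a2
    exact ⟨by linarith, by linarith⟩

variable [StrictConvexSpace ℝ E]

lemma step {x y : ℝ} (h : ‖x • u + y • w‖ = 1) (hy : y ≠ 0) : ∃ m : ℝ, 0 < m ∧ m < 1 + r ∧
    ‖(r + m * x) • u + (m * y) • w‖ = 1 ∧ ‖(r * x - (1 - r ^ 2) / m) • u + (r * y) • w‖ = 1 := by
  have r0 := S.r0
  have r1 := S.r1
  set Y := x • u + y • w with hY
  have hru : ‖r • u‖ = r := by rw [norm_smul, S.hu, mul_one, Real.norm_eq_abs, abs_of_pos r0]
  have c : ContinuousOn (fun m : ℝ => ‖r • u + m • Y‖) (Icc 0 3) := by fun_prop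
  obtain ⟨m, hm, e⟩ := intermediate_value_Ioo (show (0 : ℝ) ≤ 3 by norm_num) c
    (show (1 : ℝ) ∈ Ioo _ _ from ⟨by simpa [hru] using r1, by
      have := norm_sub_le (r • u + (3 : ℝ) • Y) (r • u)
      rw [add_sub_cancel_left, norm_smul, h, hru] at this
      simp only [Real.norm_ofNat] at this
      linarith⟩)
  simp only at e
  have hmY : ‖m • Y‖ = m := by rw [norm_smul, h, mul_one, Real.norm_eq_abs, abs_of_pos hm.1]
  have e1 : (r + m * x) • u + (m * y) • w = r • u + m • Y := by rw [hY]; module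
  refine ⟨m, hm.1, ?_, by rw [e1, e], ?_⟩
  · by_contra hc
    rw [not_lt] at hc
    have t := norm_add_le (r • u + m • Y) (-(r • u))
    have e2 : r • u + m • Y + -(r • u) = m • Y := by abel
    have hs : SameRay ℝ (r • u + m • Y) (-(r • u)) := by
      rw [sameRay_iff_norm_add]
      rw [e2, norm_neg, hmY, e, hru] at t ⊢
      linarith
    have hs2 : SameRay ℝ (r • u + m • Y) (-u) := by
      rw [← smul_neg] at hs
      have := hs.nonneg_smul_right (inv_pos.2 r0).le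
      rwa [smul_smul, inv_mul_cancel₀ r0.ne', one_smul] at this
    have e3 := hs2.eq_of_norm_eq (by rw [e, norm_neg, S.hu])
    have a := S.yle (r + m * x + 1) (m * y)
    have e4 : (r + m * x + 1) • u + (m * y) • w = 0 := by
      rw [add_smul, one_smul, add_right_comm, e1, e3]; abel
    rw [e4, norm_zero, mul_zero, abs_nonpos_iff] at a
    exact hy ((mul_eq_zero.1 a).resolve_left hm.1.ne')
  · have a := S.ap _ e
    rw [add_sub_cancel_left, hmY] at a
    have e5 : r • (r • u + m • Y) - u = m • ((r * x - (1 - r ^ 2) / m) • u + (r * y) • w) := by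
      have : m * ((1 - r ^ 2) / m) = 1 - r ^ 2 := mul_div_cancel₀ _ hm.1.ne'
      rw [hY]
      generalize (1 - r ^ 2) / m = n at this
      linear_combination (norm := module) this • u
    rw [e5, norm_smul, Real.norm_eq_abs, abs_of_pos hm.1] at a
    exact mul_left_cancel₀ hm.1.ne' (by rw [← a, mul_one])

omit [StrictConvexSpace ℝ E] in
lemma m_lower {x y m : ℝ} (h : ‖x • u + y • w‖ = 1) (hx : x ≤ 0) (hy : |y| ≤ (1 - r) / 8) (hm : 0 < m)
    (hm' : m < 1 + r) (e : ‖(r + m * x) • u + (m * y) • w‖ = 1) :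
    1 + r - 4 * |y| ≤ m ∧ r + m * x < 0 := by
  have r0 := S.r0
  have r1 := S.r1
  have a1 := S.le_add x y
  have a2 := S.xle x y
  have a3 := S.le_add (r + m * x) (m * y)
  rw [h, abs_of_nonpos hx] at a1 a2
  rw [e, abs_mul, abs_of_pos hm] at a3
  have y0 := abs_nonneg y
  have b1 : m * |y| ≤ 2 * |y| := mul_le_mul_of_nonneg_right (by linarith) y0
  have b2 : m * x ≤ 0 := mul_nonpos_of_nonneg_of_nonpos hm.le hx
  have b3 : r + m * x < 0 := by
    by_contra hc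
    rw [not_lt] at hc
    rw [abs_of_nonneg hc] at a3
    linarith
  rw [abs_of_neg b3] at a3
  exact ⟨by nlinarith, b3⟩

lemma Ph_pos {x y : ℝ} (h : ‖x • u + y • w‖ = 1) (hy : y ≠ 0) : 0 < Ph x y := by
  have key : ∀ x y : ℝ, ‖x • u + y • w‖ = 1 → y ≠ 0 → x ≠ 1 := by
    rintro x y h hy rfl
    have hne : (1 : ℝ) • u + y • w ≠ u := by
      intro e
      have a := S.yle 0 y
      have : (0 : ℝ) • u + y • w = 0 := by simpa using e
      rw [this, norm_zero, mul_zero, abs_nonpos_iff] at a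
      exact hy a
    have := norm_combo_lt_of_ne h.le S.hu.le hne (a := 1 / 2) (b := 1 / 2) (by norm_num) (by norm_num)
      (by norm_num)
    have e : (1 / 2 : ℝ) • ((1 : ℝ) • u + y • w) + (1 / 2 : ℝ) • u = (1 : ℝ) • u + (y / 2) • w := by module
    rw [e] at this
    have := S.xle 1 (y / 2)
    rw [abs_one] at this
    linarith
  have a := S.xle x y
  rw [h, abs_le] at a
  have a1 := key x y h hy
  have a2 := key (-x) (-y) (by rw [neg, h]) (neg_ne_zero.2 hy)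
  apply div_pos _ (by positivity)
  have b1 : x < 1 := lt_of_le_of_ne a.2 a1
  have b2 : -x < 1 := lt_of_le_of_ne (by linarith) a2
  nlinarith

lemma exists_min : ∃ x0 y0 : ℝ, ‖x0 • u + y0 • w‖ = 1 ∧ y0 ≠ 0 ∧
    ∀ x y : ℝ, ‖x • u + y • w‖ = 1 → y ≠ 0 → Ph x0 y0 ≤ Ph x y := by
  have r0 := S.r0
  have r1 := S.r1
  have cont : ∀ b : ℝ, 0 < b → ∀ ε : ℝ, ContinuousOn (fun p : ℝ × ℝ => Ph p.1 p.2 + ε * |p.1 / p.2|)
      {p : ℝ × ℝ | ‖p.1 • u + p.2 • w‖ = 1 ∧ b ≤ |p.2|} := by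
    intro b hb ε
    have hne : ∀ p ∈ {p : ℝ × ℝ | ‖p.1 • u + p.2 • w‖ = 1 ∧ b ≤ |p.2|}, p.2 ≠ 0 := fun p hp h => by
      have := hp.2; rw [h, abs_zero] at this; linarith
    unfold Ph
    exact (ContinuousOn.div (by fun_prop) (by fun_prop) fun p hp => pow_ne_zero 2 (hne p hp)).add
      (continuousOn_const.mul (ContinuousOn.div (by fun_prop) (by fun_prop) hne).abs)
  have b0 : 0 < (1 - r) / 8 := by linarith
  obtain ⟨⟨x0, y0⟩, ⟨h1, h2⟩, hmin⟩ := (S.compact ((1 - r) / 8)).exists_isMinOn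
    ⟨(0, 1), by simp [S.hw], by simp; linarith⟩ (cont _ b0 0)
  have hy0 : y0 ≠ 0 := fun h => by simp only [h, abs_zero] at h2; linarith
  refine ⟨x0, y0, h1, hy0, fun x y h hy => ?_⟩
  apply le_of_forall_pos_le_add
  intro η hη
  set ε := η / (|x / y| + 1) with hε
  have ε0 : 0 < ε := by positivity
  have εη : ε * |x / y| ≤ η := by
    rw [hε, div_mul_eq_mul_div, div_le_iff₀ (by positivity)]; nlinarith [abs_nonneg (x / y)]
  set g := Ph x y + ε * |x / y| with hg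
  have g0 : 0 < g := by have := S.Ph_pos h hy; positivity
  set b := min (min (1 / 2) (ε / (2 * g))) |y| with hb
  have hb0 : 0 < b := lt_min (lt_min (by norm_num) (by positivity)) (abs_pos.2 hy)
  have out : ∀ x' y' : ℝ, ‖x' • u + y' • w‖ = 1 → y' ≠ 0 → |y'| < b → g < Ph x' y' + ε * |x' / y'| := by
    intro x' y' h' hy' hlt
    have a1 := S.le_add x' y'
    have a2 : |y'| < 1 / 2 := lt_of_lt_of_le hlt ((min_le_left _ _).trans (min_le_left _ _))
    have a3 : |y'| < ε / (2 * g) := lt_of_lt_of_le hlt ((min_le_left _ _).trans (min_le_right _ _))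
    have a4 := S.Ph_pos h' hy'
    have a5 := abs_pos.2 hy'
    rw [lt_div_iff₀ (by positivity)] at a3
    have : g < ε * |x' / y'| := by
      rw [abs_div, ← mul_div_assoc, lt_div_iff₀ a5]; nlinarith
    linarith
  obtain ⟨⟨x1, y1⟩, ⟨k1, k2⟩, kmin⟩ := (S.compact b).exists_isMinOn
    ⟨(x, y), h, min_le_right _ _⟩ (cont _ hb0 ε)
  have hy1 : y1 ≠ 0 := fun h => by simp only [h, abs_zero] at k2; linarith
  have k3 : Ph x1 y1 + ε * |x1 / y1| ≤ g := kmin (a := (x, y)) ⟨h, min_le_right _ _⟩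
  have glob : ∀ x' y' : ℝ, ‖x' • u + y' • w‖ = 1 → y' ≠ 0 →
      Ph x1 y1 + ε * |x1 / y1| ≤ Ph x' y' + ε * |x' / y'| := by
    intro x' y' h' hy'
    rcases lt_or_ge |y'| b with c | c
    · linarith [out x' y' h' hy' c]
    · exact kmin (a := (x', y')) ⟨h', c⟩
  have big : (1 - r) / 8 ≤ |y1| := by
    by_contra hc
    rw [not_le] at hc
    set G := Ph x1 y1 + ε * |x1 / y1| with hG
    have start : ∃ y', |y'| ≤ (1 - r) / 8 ∧ y' ≠ 0 ∧ ∃ x', x' ≤ 0 ∧ ‖x' • u + y' • w‖ = 1 ∧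
        Ph x' y' + ε * |x' / y'| = G := by
      rcases le_total x1 0 with c | c
      · exact ⟨y1, hc.le, hy1, x1, c, k1, rfl⟩
      · refine ⟨-y1, by rw [abs_neg]; exact hc.le, neg_ne_zero.2 hy1, -x1, by linarith,
          by rw [neg]; exact k1, ?_⟩
        simp [hG, Ph]
    obtain ⟨y', hy'⟩ := start
    refine descent r0 r1 hb0 (P := fun y' => |y'| ≤ (1 - r) / 8 ∧ y' ≠ 0 ∧ ∃ x', x' ≤ 0 ∧
      ‖x' • u + y' • w‖ = 1 ∧ Ph x' y' + ε * |x' / y'| = G) ?_ ?_ hy'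
    · rintro y' ⟨c1, c2, x', c3, c4, c5⟩
      obtain ⟨m, m0, m1, m2, m3⟩ := S.step c4 c2
      obtain ⟨-, m4⟩ := S.m_lower c4 c3 c1 m0 m1 m2
      have n0 : 0 < (1 - r ^ 2) / m := div_pos (by nlinarith) m0
      have z0 : r * x' - (1 - r ^ 2) / m ≤ 0 := by nlinarith
      have d1 := glob _ _ m2 (mul_ne_zero m0.ne' c2)
      have d2 := glob _ _ m3 (mul_ne_zero r0.ne' c2)
      have d3 := Ph_step (x := x') r0 m0 c2
      have d4 : |x' / y'| = r ^ 2 * |(r * x' - (1 - r ^ 2) / m) / (r * y')| +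
          (1 - r ^ 2) * |(r + m * x') / (m * y')| := by
        have := abs_pos.2 c2
        rw [abs_div, abs_div, abs_div, abs_mul, abs_mul, abs_of_pos r0, abs_of_pos m0, abs_of_nonpos c3,
          abs_of_nonpos z0, abs_of_neg m4]
        field_simp; ring
      refine ⟨?_, mul_ne_zero r0.ne' c2, _, z0, m3, le_antisymm ?_ d2⟩
      · rw [abs_mul, abs_of_pos r0]; nlinarith [abs_nonneg y']
      · have w1 : 0 < r ^ 2 := by positivity
        have w2 : 0 ≤ 1 - r ^ 2 := by have := pow_le_one₀ (n := 2) r0.le r1.le; linarith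
        apply le_of_mul_le_mul_left _ w1
        have := mul_le_mul_of_nonneg_left d1 w2
        rw [d3, d4] at c5
        linarith
    · rintro y' ⟨-, c2, x', -, c4, c5⟩
      by_contra hc'
      linarith [out x' y' c4 c2 (not_le.1 hc')]
  have k4 : Ph x0 y0 + 0 * |x0 / y0| ≤ Ph x1 y1 + 0 * |x1 / y1| := hmin (a := (x1, y1)) ⟨k1, big⟩
  have : 0 ≤ ε * |x1 / y1| := by positivity
  linarith

/-- near `-u`, on the side `y > 0`, the function is close to its minimum -/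
lemma near_min {c : ℝ} (hc : ∀ x y : ℝ, ‖x • u + y • w‖ = 1 → y ≠ 0 → c ≤ Ph x y)
    {x0 y0 : ℝ} (h0 : ‖x0 • u + y0 • w‖ = 1) (hy0 : 0 < y0) (e0 : Ph x0 y0 = c) {c' : ℝ} (hc' : c < c') :
    ∃ b : ℝ, 0 < b ∧ ∀ x y : ℝ, ‖x • u + y • w‖ = 1 → x ≤ 0 → 0 < y → y < b → Ph x y < c' := by
  have r0 := S.r0
  have r1 := S.r1
  have w1 : 0 < r ^ 2 := by positivity
  have w2 : 0 < 1 - r ^ 2 := by nlinarith
  have c0 : 0 < c := e0 ▸ S.Ph_pos h0 hy0.ne'
  have inv : ∀ x y m : ℝ, 0 < y → Ph x y = c → 0 < m → ‖(r + m * x) • u + (m * y) • w‖ = 1 →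
      ‖(r * x - (1 - r ^ 2) / m) • u + (r * y) • w‖ = 1 →
      Ph (r + m * x) (m * y) = c ∧ Ph (r * x - (1 - r ^ 2) / m) (r * y) = c := by
    intro x y m hy e m0 m2 m3
    have d1 := hc _ _ m2 (by positivity)
    have d2 := hc _ _ m3 (by positivity)
    have d3 := Ph_step (x := x) r0 m0 hy.ne'
    rw [e] at d3
    constructor
    · apply le_antisymm _ d1
      apply le_of_mul_le_mul_left _ w2
      nlinarith
    · apply le_antisymm _ d2
      apply le_of_mul_le_mul_left _ w1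
      nlinarith
  set T : Set ℝ := {y | 0 < y ∧ ∃ x, x ≤ 0 ∧ ‖x • u + y • w‖ = 1 ∧ Ph x y = c} with hT
  have Ta : ∀ y ∈ T, r * y ∈ T := by
    rintro y ⟨hy, x, hx, h, e⟩
    obtain ⟨m, m0, m1, m2, m3⟩ := S.step h hy.ne'
    have n0 : 0 < (1 - r ^ 2) / m := div_pos w2 m0
    exact ⟨by positivity, _, by nlinarith, m3, (inv x y m hy e m0 m2 m3).2⟩
  have Tn : ∀ n : ℕ, ∀ y ∈ T, r ^ n * y ∈ T := by
    intro n y hy
    induction n with
    | zero => simpa using hy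
    | succ n ih => rw [pow_succ', mul_assoc]; exact Ta _ ih
  have Tb : ∀ y ∈ T, y ≤ (1 - r) / 8 → ∃ m, 1 + r - 4 * y ≤ m ∧ m < 1 + r ∧ m * y ∈ T := by
    rintro y ⟨hy, x, hx, h, e⟩ hy'
    obtain ⟨m, m0, m1, m2, m3⟩ := S.step h hy.ne'
    obtain ⟨m4, m5⟩ := S.m_lower h hx (by rwa [abs_of_pos hy]) m0 m1 m2
    rw [abs_of_pos hy] at m4
    exact ⟨m, m4, m1, by positivity, _, m5.le, m2, (inv x y m hy e m0 m2 m3).1⟩
  have Tk : ∀ k : ℕ, ∀ θ : ℝ, 0 < θ → θ < 1 → ∃ b : ℝ, 0 < b ∧ ∀ y ∈ T, y ≤ b →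
      ∃ t ∈ T, θ ^ (k + 1) * (1 + r) ^ (k + 1) * y ≤ t ∧ t < (1 + r) ^ (k + 1) * y := by
    intro k θ θ0 θ1
    have one : ∀ y ∈ T, y ≤ min ((1 - r) / 8) ((1 - θ) / 4) →
        ∃ t ∈ T, θ * (1 + r) * y ≤ t ∧ t < (1 + r) * y := by
      intro y hy hb
      obtain ⟨m, m1, m2, m3⟩ := Tb y hy (hb.trans (min_le_left _ _))
      have := hb.trans (min_le_right _ _)
      exact ⟨m * y, m3, mul_le_mul_of_nonneg_right (by nlinarith) hy.1.le,
        mul_lt_mul_of_pos_right m2 hy.1⟩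
    have b0 : 0 < min ((1 - r) / 8) ((1 - θ) / 4) := lt_min (by linarith) (by linarith)
    induction k with
    | zero => exact ⟨_, b0, by simpa using one⟩
    | succ k ih =>
      obtain ⟨b, hb, ih⟩ := ih
      have p0 : 0 < (1 + r) ^ (k + 1) := by positivity
      refine ⟨min b (min ((1 - r) / 8) ((1 - θ) / 4) / (1 + r) ^ (k + 1)), lt_min hb (by positivity),
        fun y hy hyb => ?_⟩
      obtain ⟨t, t1, t2, t3⟩ := ih y hy (hyb.trans (min_le_left _ _))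
      have := hyb.trans (min_le_right _ _)
      rw [le_div_iff₀ p0] at this
      obtain ⟨t', s1, s2, s3⟩ := one t t1 (by linarith)
      refine ⟨t', s1, le_trans ?_ s2, s3.trans ?_⟩
      · have := mul_le_mul_of_nonneg_left t2 (show 0 ≤ θ * (1 + r) by positivity)
        refine le_trans (le_of_eq ?_) this
        ring
      · have := mul_lt_mul_of_pos_left t3 (show 0 < 1 + r by linarith)
        refine lt_of_lt_of_le this (le_of_eq ?_)
        ring
  have Tne : ∀ b : ℝ, 0 < b → ∃ y ∈ T, y ≤ b := by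
    intro b hb
    by_contra hcon
    push Not at hcon
    have start : ∃ y, y ∈ T := by
      by_contra hemp
      push Not at hemp
      refine descent r0 r1 one_pos (P := fun y => 0 < y ∧ ∃ x, ‖x • u + y • w‖ = 1 ∧ Ph x y = c) ?_ ?_
        ⟨hy0, x0, h0, e0⟩
      · rintro y ⟨hy, x, h, e⟩
        obtain ⟨m, m0, m1, m2, m3⟩ := S.step h hy.ne'
        exact ⟨by positivity, _, m3, (inv x y m hy e m0 m2 m3).2⟩
      · intro y hP
        exfalso
        refine descent r0 r1 (show 0 < (1 - r) by linarith)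
          (P := fun y => 0 < y ∧ ∃ x, x ≤ r ∧ ‖x • u + y • w‖ = 1 ∧ Ph x y = c) ?_ ?_ (y := r * y) ?_
        · rintro y ⟨hy, x, hx, h, e⟩
          obtain ⟨m, m0, m1, m2, m3⟩ := S.step h hy.ne'
          have n0 : 0 < (1 - r ^ 2) / m := div_pos w2 m0
          exact ⟨by positivity, _, by nlinarith, m3, (inv x y m hy e m0 m2 m3).2⟩
        · rintro y ⟨hy, x, hx, h, e⟩
          have a1 := S.le_add x y
          rcases le_total x 0 with c1 | c1
          · exact absurd ⟨hy, x, c1, h, e⟩ (hemp y)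
          · rw [h, abs_of_nonneg c1] at a1; linarith
        · obtain ⟨hy, x, h, e⟩ := hP
          obtain ⟨m, m0, m1, m2, m3⟩ := S.step h hy.ne'
          have n0 : 0 < (1 - r ^ 2) / m := div_pos w2 m0
          have a1 := S.xle x y
          rw [h, abs_le] at a1
          exact ⟨by positivity, _, by nlinarith, m3, (inv x y m hy e m0 m2 m3).2⟩
    obtain ⟨y, hy⟩ := start
    exact descent r0 r1 hb (P := fun y => y ∈ T) Ta
      (fun y hy => (hcon y hy).le.trans (le_abs_self y)) hy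
  -- a ratio close to one
  obtain ⟨τ, τ0, τ1, hτ⟩ : ∃ τ : ℝ, 0 < τ ∧ τ < 1 ∧ c < c' * τ ^ 4 := by
    have T0 : Tendsto (fun τ : ℝ => c' * τ ^ 4) (𝓝[<] 1) (𝓝 (c' * 1 ^ 4)) := by
      have : Continuous fun τ : ℝ => c' * τ ^ 4 := by fun_prop
      exact (this.tendsto 1).mono_left nhdsWithin_le_nhds
    obtain ⟨τ, a1, a2, a3⟩ := ((T0.eventually (lt_mem_nhds (by simpa using hc'))).and
      (((lt_mem_nhds one_pos).filter_mono nhdsWithin_le_nhds).and self_mem_nhdsWithin)).exists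
    exact ⟨τ, a2, a3, a1⟩
  obtain ⟨k, n, k0, p1, p2⟩ := exists_pow_near r0 r1 τ0 τ1
  obtain ⟨k, rfl⟩ : ∃ k', k = k' + 1 := ⟨k - 1, by omega⟩
  obtain ⟨θ, θ0, θ1, hθ⟩ : ∃ θ : ℝ, 0 < θ ∧ θ < 1 ∧ τ < θ ^ (k + 1) := by
    have T0 : Tendsto (fun θ : ℝ => θ ^ (k + 1)) (𝓝[<] 1) (𝓝 (1 ^ (k + 1))) := by
      have : Continuous fun θ : ℝ => θ ^ (k + 1) := by fun_prop
      exact (this.tendsto 1).mono_left nhdsWithin_le_nhds
    obtain ⟨θ, a1, a2, a3⟩ := ((T0.eventually (lt_mem_nhds (by simpa using τ1))).and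
      (((lt_mem_nhds one_pos).filter_mono nhdsWithin_le_nhds).and self_mem_nhdsWithin)).exists
    exact ⟨θ, a2, a3, a1⟩
  obtain ⟨b, hb, hbk⟩ := Tk k θ θ0 θ1
  have Tg : ∀ y ∈ T, y ≤ b → ∃ t ∈ T, τ ^ 2 * y ≤ t ∧ t < y := by
    intro y hy hyb
    obtain ⟨t, t1, t2, t3⟩ := hbk y hy hyb
    have rn : 0 < r ^ n := by positivity
    have y0 := hy.1
    refine ⟨r ^ n * t, Tn n t t1, ?_, ?_⟩
    · calc τ ^ 2 * y = τ * τ * y := by ring
        _ ≤ θ ^ (k + 1) * ((1 + r) ^ (k + 1) * r ^ n) * y := by gcongr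
        _ = r ^ n * (θ ^ (k + 1) * (1 + r) ^ (k + 1) * y) := by ring
        _ ≤ r ^ n * t := by gcongr
    · calc r ^ n * t < r ^ n * ((1 + r) ^ (k + 1) * y) := by gcongr
        _ = (1 + r) ^ (k + 1) * r ^ n * y := by ring
        _ ≤ 1 * y := by gcongr
        _ = y := one_mul y
  obtain ⟨y1, hy1, hy1b⟩ := Tne (min b (1 / 2)) (lt_min hb (by norm_num))
  refine ⟨y1, hy1.1, fun x y h hx hy hyb => ?_⟩
  have cK : IsCompact ({p : ℝ × ℝ | ‖p.1 • u + p.2 • w‖ = 1 ∧ y ≤ |p.2|} ∩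
      {p : ℝ × ℝ | p.1 ≤ 0 ∧ y ≤ p.2 ∧ 1 - p.1 ^ 2 = c * p.2 ^ 2}) :=
    (S.compact y).inter_right ((isClosed_le continuous_fst continuous_const).inter
      ((isClosed_le continuous_const continuous_snd).inter
        (isClosed_eq (f := fun p : ℝ × ℝ => 1 - p.1 ^ 2) (g := fun p : ℝ × ℝ => c * p.2 ^ 2)
          (by fun_prop) (by fun_prop))))
  have memK : ∀ t ∈ T, y ≤ t → ∃ x', (x', t) ∈ ({p : ℝ × ℝ | ‖p.1 • u + p.2 • w‖ = 1 ∧ y ≤ |p.2|} ∩
      {p : ℝ × ℝ | p.1 ≤ 0 ∧ y ≤ p.2 ∧ 1 - p.1 ^ 2 = c * p.2 ^ 2}) := by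
    rintro t ⟨t0, x', a1, a2, a3⟩ ht
    refine ⟨x', ⟨a2, ht.trans (le_abs_self t)⟩, a1, ht, ?_⟩
    rw [← a3, Ph, div_mul_cancel₀ _ (by positivity)]
  obtain ⟨x1, hx1⟩ := memK y1 hy1 hyb.le
  obtain ⟨⟨xs, s⟩, ⟨⟨s1, -⟩, s2, s3, s4⟩, smin⟩ := cK.exists_isMinOn ⟨_, hx1⟩ (f := fun p => p.2) (by fun_prop)
  simp only at s1 s2 s3 s4
  have s0 : 0 < s := lt_of_lt_of_le hy s3
  have sT : s ∈ T := ⟨s0, xs, s2, s1, by rw [Ph, s4, mul_div_cancel_right₀ _ (by positivity)]⟩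
  have s5 : s ≤ y1 := smin hx1
  obtain ⟨t, t1, t2, t3⟩ := Tg s sT (s5.trans (hy1b.trans (min_le_left _ _)))
  have t4 : t < y := by
    by_contra hcon
    obtain ⟨x', hx'⟩ := memK t t1 (not_lt.1 hcon)
    have : s ≤ t := smin hx'
    linarith
  have y12 : y < 1 / 2 := lt_of_lt_of_le hyb (hy1b.trans (min_le_right _ _))
  have a1 := S.xle xs s
  rw [s1, abs_of_nonpos s2] at a1
  have hxx : x ≤ xs := by
    by_contra hcon
    rw [not_le] at hcon
    set l := y / s with hl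
    have l0 : 0 < l := by positivity
    have l1 : l ≤ 1 := (div_le_one s0).2 s3
    have ls : l * s = y := div_mul_cancel₀ _ s0.ne'
    set xb := l * xs - (1 - l) with hxb
    have xb1 : xb ≤ xs := by rw [hxb]; nlinarith
    have n1 : ‖xb • u + y • w‖ ≤ 1 := by
      have e : xb • u + y • w = l • (xs • u + s • w) + (1 - l) • (-u) := by rw [hxb, ← ls]; module
      rw [e]
      refine (norm_add_le _ _).trans ?_
      rw [norm_smul, norm_smul, s1, norm_neg, S.hu, Real.norm_eq_abs, Real.norm_eq_abs, abs_of_pos l0,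
        abs_of_nonneg (by linarith)]
      linarith
    have xb0 : xb < 0 := by linarith
    set κ := x / xb with hκ
    have κ0 : 0 ≤ κ := div_nonneg_of_nonpos hx xb0.le
    have κ1 : κ < 1 := by rw [hκ, div_lt_one_of_neg xb0]; linarith
    have κx : κ * xb = x := div_mul_cancel₀ _ xb0.ne
    have e : x • u + y • w = κ • (xb • u + y • w) + ((1 - κ) * y) • w := by rw [← κx]; module
    have n2 := norm_add_le (κ • (xb • u + y • w)) (((1 - κ) * y) • w)
    rw [← e, h, norm_smul, norm_smul, S.hw, Real.norm_eq_abs, Real.norm_eq_abs, abs_of_nonneg κ0,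
      abs_of_pos (mul_pos (by linarith) hy)] at n2
    nlinarith
  have f1 : 1 - x ^ 2 ≤ c * s ^ 2 := by
    have := mul_nonneg (sub_nonneg.2 hxx) (show 0 ≤ -x - xs by linarith)
    linarith
  have f2 : (τ ^ 2 * s) ^ 2 ≤ y ^ 2 := pow_le_pow_left₀ (by positivity) (by linarith) 2
  rw [Ph, div_lt_iff₀ (by positivity)]
  have c'0 : 0 < c' := c0.trans hc'
  calc 1 - x ^ 2 ≤ c * s ^ 2 := f1
    _ < c' * τ ^ 4 * s ^ 2 := by gcongr
    _ = c' * (τ ^ 2 * s) ^ 2 := by ring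
    _ ≤ c' * y ^ 2 := by gcongr

theorem quad : ∃ c : ℝ, 0 < c ∧ ∀ x y : ℝ, ‖x • u + y • w‖ ^ 2 = x ^ 2 + c * y ^ 2 := by
  have r0 := S.r0
  have r1 := S.r1
  have w1 : 0 < r ^ 2 := by positivity
  have w2 : 0 < 1 - r ^ 2 := by nlinarith
  obtain ⟨x0, y0, h0, hy0, hmin⟩ := S.exists_min
  set c := Ph x0 y0 with hc
  have PhN : ∀ x y : ℝ, Ph (-x) (-y) = Ph x y := fun x y => by simp [Ph]
  have PhN' : ∀ x y : ℝ, Ph x (-y) = Ph x y := fun x y => by simp [Ph]
  obtain ⟨x1, y1, h1, hy1, e1⟩ : ∃ x1 y1 : ℝ, ‖x1 • u + y1 • w‖ = 1 ∧ 0 < y1 ∧ Ph x1 y1 = c := by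
    rcases lt_or_gt_of_ne hy0 with h | h
    · exact ⟨-x0, -y0, by rw [neg, h0], by linarith, PhN _ _⟩
    · exact ⟨x0, y0, h0, h, rfl⟩
  have hmax : ∀ x y : ℝ, ‖x • u + y • w‖ = 1 → y ≠ 0 → Ph x y ≤ c := by
    intro x y h hy
    by_contra hcon
    rw [not_le] at hcon
    obtain ⟨b1, hb1, k1⟩ := S.near_min hmin h1 hy1 e1 hcon
    obtain ⟨b2, hb2, k2⟩ := S.flip.near_min (c := c) (fun x y h hy => by
      rw [← PhN']; exact hmin x (-y) (by simpa using h) (neg_ne_zero.2 hy)) (x0 := -x1) (y0 := y1)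
      (by rw [← h1, ← neg]; simp) hy1 (by rw [← e1]; simp [Ph]) hcon
    have small : ∀ x' y' : ℝ, ‖x' • u + y' • w‖ = 1 → y' ≠ 0 → |y'| < min b1 b2 → Ph x' y' < Ph x y := by
      have half : ∀ x' y' : ℝ, x' ≤ 0 → ‖x' • u + y' • w‖ = 1 → y' ≠ 0 → |y'| < min b1 b2 →
          Ph x' y' < Ph x y := by
        intro x' y' hx' h' hy' hb
        rw [lt_min_iff, abs_lt, abs_lt] at hb
        rcases lt_or_gt_of_ne hy' with c1 | c1
        · rw [← PhN']; exact k2 x' (-y') (by simpa using h') hx' (by linarith) (by linarith [hb.2.1])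
        · exact k1 x' y' h' hx' c1 hb.1.2
      intro x' y' h' hy' hb
      rcases le_total x' 0 with c1 | c1
      · exact half x' y' c1 h' hy' hb
      · rw [← PhN]
        exact half _ _ (by linarith) (by rw [neg, h']) (neg_ne_zero.2 hy') (by rwa [abs_neg])
    have b0 : 0 < min b1 b2 := lt_min hb1 hb2
    have hyb : min b1 b2 ≤ |y| := by
      by_contra hc'; exact lt_irrefl _ (small x y h hy (not_le.1 hc'))
    have hne : ∀ p ∈ {p : ℝ × ℝ | ‖p.1 • u + p.2 • w‖ = 1 ∧ min b1 b2 ≤ |p.2|}, p.2 ≠ 0 := fun p hp h => by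
      have := hp.2; rw [h, abs_zero] at this; linarith
    obtain ⟨⟨xs, ys⟩, hs, smax⟩ := (S.compact (min b1 b2)).exists_isMaxOn ⟨(x, y), h, hyb⟩
      (f := fun p => Ph p.1 p.2) (by
        unfold Ph
        exact ContinuousOn.div (by fun_prop) (by fun_prop) fun p hp => pow_ne_zero 2 (hne p hp))
    have g0 : Ph x y ≤ Ph xs ys := smax (a := (x, y)) ⟨h, hyb⟩
    have glob : ∀ x' y' : ℝ, ‖x' • u + y' • w‖ = 1 → y' ≠ 0 → Ph x' y' ≤ Ph xs ys := by
      intro x' y' h' hy'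
      rcases lt_or_ge |y'| (min b1 b2) with c1 | c1
      · linarith [small x' y' h' hy' c1]
      · exact smax (a := (x', y')) ⟨h', c1⟩
    refine descent r0 r1 b0 (P := fun y' => y' ≠ 0 ∧ ∃ x', ‖x' • u + y' • w‖ = 1 ∧ Ph x' y' = Ph xs ys)
      ?_ ?_ ⟨hne _ hs, xs, hs.1, rfl⟩
    · rintro y' ⟨c2, x', c4, c5⟩
      obtain ⟨m, m0, m1, m2, m3⟩ := S.step c4 c2
      have d1 := glob _ _ m2 (mul_ne_zero m0.ne' c2)
      have d2 := glob _ _ m3 (mul_ne_zero r0.ne' c2)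
      have d3 := Ph_step (x := x') r0 m0 c2
      refine ⟨mul_ne_zero r0.ne' c2, _, m3, le_antisymm d2 ?_⟩
      apply le_of_mul_le_mul_left _ w1
      have := mul_le_mul_of_nonneg_left d1 w2.le
      linarith
    · rintro y' ⟨c2, x', c4, c5⟩
      by_contra hc'
      linarith [small x' y' c4 c2 (not_le.1 hc')]
  refine ⟨c, S.Ph_pos h0 hy0, fun x y => ?_⟩
  by_cases hy : y = 0
  · simp [hy, norm_smul, S.hu]
  have n0 : 0 < ‖x • u + y • w‖ := by linarith [S.yle x y, abs_pos.2 hy]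
  set n := ‖x • u + y • w‖ with hn
  have h : ‖(x / n) • u + (y / n) • w‖ = 1 := by
    have : (x / n) • u + (y / n) • w = n⁻¹ • (x • u + y • w) := by
      rw [div_eq_inv_mul, div_eq_inv_mul]; module
    rw [this, norm_smul, ← hn, Real.norm_eq_abs, abs_of_pos (inv_pos.2 n0), inv_mul_cancel₀ n0.ne']
  have hy' : y / n ≠ 0 := div_ne_zero hy n0.ne'
  have := le_antisymm (hmax _ _ h hy') (hmin _ _ h hy')
  rw [Ph] at this
  field_simp at this
  linarith

end St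

end Pool.Agent.P.MP_874adf_gt
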