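import Pool.Agent.P.MP_874adf_gt.Core

/-! One circle that is an Apollonius set makes a strictly convex normed plane Euclidean. -/

set_option autoImplicit false

namespace Pool.Agent.P.MP_874adf_gt

open Set Filter Topology

variable {E : Type*} [NormedAddCommGroup E] [NormedSpace ℝ E] [StrictConvexSpace ℝ E]

theorem euclid_of_ap (h2 : Module.finrank ℝ E = 2) {u : E} {r : ℝ} (hu : ‖u‖ = 1) (r0 : 0 < r) (r1 : r < 1)
    (h : ∀ X : E, ‖X‖ = 1 → ‖X - r • u‖ = ‖r • X - u‖) :
    Nonempty (E ≃ₗᵢ[ℝ] EuclideanSpace ℝ (Fin 2)) := by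
  have : FiniteDimensional ℝ E := Module.finite_of_finrank_pos (by omega)
  obtain ⟨g, g1, g2⟩ := exists_dual_vector ℝ u (by rw [hu]; exact one_ne_zero)
  have g3 : g u = 1 := by simpa [hu] using g2
  obtain ⟨v, hv0, hv⟩ : ∃ v : E, v ≠ 0 ∧ g v = 0 := by
    by_contra hc
    push Not at hc
    have inj : Function.Injective (g : E →ₗ[ℝ] ℝ) := (injective_iff_map_eq_zero _).2 fun v hv => by
      by_contra h0; exact hc v h0 hv
    have := LinearMap.finrank_le_finrank_of_injective inj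
    rw [h2, Module.finrank_self] at this
    omega
  have hn : 0 < ‖v‖ := norm_pos_iff.2 hv0
  set w := ‖v‖⁻¹ • v with hw
  have hw1 : ‖w‖ = 1 := by simp [hw, norm_smul, hn.ne']
  have hgw : g w = 0 := by simp [hw, hv]
  have S : St u w r := ⟨r0, r1, hu, hw1, fun x y => by
    have := g.le_opNorm (x • u + y • w)
    simpa [g1, g3, hgw] using this, h⟩
  obtain ⟨c, c0, hc⟩ := S.quad
  let L : EuclideanSpace ℝ (Fin 2) →ₗ[ℝ] E :=
    { toFun := fun p => p 0 • u + (p 1 / √c) • w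
      map_add' := fun p q => by simp only [PiLp.add_apply, add_div]; module
      map_smul' := fun t p => by
        simp only [PiLp.smul_apply, smul_eq_mul, RingHom.id_apply, mul_div_assoc]; module }
  have hL : ∀ p, ‖L p‖ = ‖p‖ := fun p => by
    rw [← sq_eq_sq₀ (norm_nonneg _) (norm_nonneg _), EuclideanSpace.real_norm_sq_eq, Fin.sum_univ_two]
    show ‖p 0 • u + (p 1 / √c) • w‖ ^ 2 = _
    rw [hc, div_pow, Real.sq_sqrt c0.le, mul_div_cancel₀ _ c0.ne']
  let L' : EuclideanSpace ℝ (Fin 2) →ₗᵢ[ℝ] E := ⟨L, hL⟩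
  exact ⟨(L'.toLinearIsometryEquiv (by simp [h2])).symm⟩

/-- normalised form: the unit circle about the origin -/
theorem euclid_of_unit (h2 : Module.finrank ℝ E = 2) {A B : E} {r : ℝ} (r0 : 0 < r) (r1 : r < 1)
    (hAB : A ≠ B) (h : ∀ X : E, ‖X‖ = 1 → ‖X - A‖ = r * ‖X - B‖)
    (hP : ‖A + (r / (1 + r)) • (B - A)‖ = 1) : Nonempty (E ≃ₗᵢ[ℝ] EuclideanSpace ℝ (Fin 2)) := by
  set P := A + (r / (1 + r)) • (B - A) with hPd
  have hB : B ≠ 0 := by
    rintro rfl
    have a1 := h P hP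
    have a2 := h (-P) (by rw [norm_neg, hP])
    rw [sub_zero, hP] at a1
    rw [sub_zero, norm_neg, hP] at a2
    have a3 := norm_sub_le (P - A) (-P - A)
    have e : P - A - (-P - A) = (2 : ℝ) • P := by module
    rw [e, norm_smul, hP, a1, a2] at a3
    simp only [Real.norm_ofNat] at a3
    linarith
  have b0 : 0 < ‖B‖ := norm_pos_iff.2 hB
  set b := ‖B‖ with hb
  set u := b⁻¹ • B with hu
  have hu1 : ‖u‖ = 1 := by simp [hu, norm_smul, ← hb, b0.ne', abs_of_pos b0]
  have eB : B = b • u := by rw [hu, smul_smul, mul_inv_cancel₀ b0.ne', one_smul]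
  have δ0 : 0 < ‖B - A‖ := norm_pos_iff.2 (sub_ne_zero.2 hAB.symm)
  have nu : ∀ s t : ℝ, ‖s • u - t • u‖ = |s - t| := fun s t => by
    rw [← sub_smul, norm_smul, hu1, mul_one, Real.norm_eq_abs]
  have a1 : ‖P - B‖ = ‖B - A‖ / (1 + r) := by
    have : P - B = (-(1 / (1 + r))) • (B - A) := by
      have e : r / (1 + r) = 1 - 1 / (1 + r) := by field_simp; ring
      rw [hPd, e]; module
    rw [this, norm_smul, Real.norm_eq_abs, abs_neg, abs_of_pos (by positivity)]; ring
  have a2 : ‖u - B‖ = |1 - b| := by simpa [← eB] using nu 1 b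
  have a3 : ‖u - B‖ ≤ ‖B - A‖ / (1 + r) := by
    rw [a2, ← a1, ← hP]; exact abs_norm_sub_norm_le P B
  have a4 := h u hu1
  have a5 := norm_sub_le (u - A) (u - B)
  rw [sub_sub_sub_cancel_left, a4] at a5
  rw [le_div_iff₀ (by linarith)] at a3
  have a6 : (1 + r) * ‖u - B‖ = ‖B - A‖ := by linarith
  have a7 : u = AffineMap.lineMap A B (r / (1 + r)) := by
    apply eq_lineMap_of_dist_eq_mul_of_dist_eq_mul
    · rw [dist_comm, dist_eq_norm, a4, dist_comm, dist_eq_norm, ← a6]; field_simp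
    · rw [dist_eq_norm, dist_comm, dist_eq_norm, ← a6]; field_simp; ring
  rw [AffineMap.lineMap_apply, vsub_eq_sub, vadd_eq_add] at a7
  have eA : A = (1 + r - r * b) • u := by
    have e : (1 + r) * (r / (1 + r)) = r := by field_simp
    have e2 : (1 + r) • u = r • (B - A) + (1 + r) • A := by
      conv_lhs => rw [a7]
      rw [smul_add, smul_smul, e]
    rw [eB] at e2
    linear_combination (norm := module) -e2
  have a8 := h (-u) (by rw [norm_neg, hu1])
  have n1 := nu (-1) (1 + r - r * b)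
  have n2 := nu (-1) b
  rw [neg_one_smul, ← eA] at n1
  rw [neg_one_smul, ← eB, abs_of_neg (by linarith)] at n2
  rw [n1, n2] at a8
  have hrb : r * b = 1 := by
    rcases (abs_eq (by nlinarith)).1 a8 with c | c <;> linarith
  apply euclid_of_ap h2 hu1 r0 r1
  intro X hX
  have := h X hX
  have e1 : A = r • u := by rw [eA, hrb]; congr 1; ring
  have e2 : r • X - u = r • (X - B) := by rw [eB, smul_sub, smul_smul, hrb, one_smul]
  rw [e2, norm_smul, Real.norm_eq_abs, abs_of_pos r0, ← this, e1]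

theorem euclid_of_circle (h2 : Module.finrank ℝ E = 2) {M : Set E} (hC : Convex ℝ M) {F A B : E} {a r : ℝ}
    (ha : 0 < a) (hs : Metric.sphere F a ⊆ M) (hA : A ∈ M) (hB : B ∈ M) (hAB : A ≠ B) (r0 : 0 < r)
    (r1 : r ≠ 1) (h : {X ∈ M | dist F X = a} = {C ∈ M | dist A C / dist C B = r}) :
    Nonempty (E ≃ₗᵢ[ℝ] EuclideanSpace ℝ (Fin 2)) := by
  have h' : ∀ X ∈ M, (‖X - F‖ = a ↔ ‖X - A‖ = r * ‖X - B‖) := by
    intro X hX
    have := Set.ext_iff.1 h X
    simp only [mem_ofPred_eq, hX, true_and] at this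
    rw [dist_comm F, dist_comm A, dist_eq_norm, dist_eq_norm, dist_eq_norm] at this
    rw [this]
    by_cases hXB : X = B
    · subst hXB
      simp only [sub_self, norm_zero, div_zero, mul_zero, norm_eq_zero, sub_eq_zero]
      exact ⟨fun e => absurd e r0.ne, fun e => absurd e.symm hAB⟩
    · rw [div_eq_iff (norm_ne_zero_iff.2 (sub_ne_zero.2 hXB))]
  clear h
  wlog hr : r < 1 generalizing A B r
  · have hr' : 1 < r := lt_of_le_of_ne (not_lt.1 hr) r1.symm
    refine this hB hA hAB.symm (inv_pos.2 r0) (inv_lt_one_of_one_lt₀ hr').ne (fun X hX => ?_)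
      (inv_lt_one_of_one_lt₀ hr')
    rw [h' X hX, eq_inv_mul_iff_mul_eq₀ r0.ne', eq_comm]
  have sc : ∀ X Y : E, ‖X - a⁻¹ • (Y - F)‖ = a⁻¹ * ‖F + a • X - Y‖ := fun X Y => by
    have : X - a⁻¹ • (Y - F) = a⁻¹ • (F + a • X - Y) := by
      have e : X = (a⁻¹ * a) • X := by rw [inv_mul_cancel₀ ha.ne', one_smul]
      conv_lhs => rw [e]
      module
    rw [this, norm_smul, Real.norm_eq_abs, abs_of_pos (inv_pos.2 ha)]
  apply euclid_of_unit h2 (A := a⁻¹ • (A - F)) (B := a⁻¹ • (B - F)) r0 hr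
  · intro e
    exact hAB (sub_left_injective (smul_right_injective E (inv_pos.2 ha).ne' e))
  · intro X hX
    have n : ‖F + a • X - F‖ = a := by
      rw [add_sub_cancel_left, norm_smul, hX, mul_one, Real.norm_eq_abs, abs_of_pos ha]
    have := (h' _ (hs (mem_sphere_iff_norm.2 n))).1 n
    rw [sc, sc, this]; ring
  · have t0 : 0 ≤ r / (1 + r) := by positivity
    have t1 : r / (1 + r) ≤ 1 := by rw [div_le_one (by linarith)]; linarith
    have m := hC.add_smul_sub_mem hA hB ⟨t0, t1⟩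
    have := (h' _ m).2 (by
      have e : A + (r / (1 + r)) • (B - A) - B = (-(1 / (1 + r))) • (B - A) := by
        have e : r / (1 + r) = 1 - 1 / (1 + r) := by field_simp; ring
        rw [e]; module
      rw [e, add_sub_cancel_left, norm_smul, norm_smul, Real.norm_eq_abs, Real.norm_eq_abs, abs_neg,
        abs_of_nonneg t0, abs_of_pos (by positivity)]; ring)
    have e : a⁻¹ • (A - F) + (r / (1 + r)) • (a⁻¹ • (B - F) - a⁻¹ • (A - F)) =
        a⁻¹ • (A + (r / (1 + r)) • (B - A) - F) := by module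
    rw [e, norm_smul, this, Real.norm_eq_abs, abs_of_pos (inv_pos.2 ha), inv_mul_cancel₀ ha.ne']

omit [StrictConvexSpace ℝ E] in
theorem circle_of_euclid (e : E ≃ₗᵢ[ℝ] EuclideanSpace ℝ (Fin 2)) {M : Set E} (hC : Convex ℝ M) {F B : E} {a : ℝ}
    (ha : 0 < a) (hF : F ∈ M) (hB : B ∈ M) (hFB : a < ‖B - F‖) :
    ∃ A ∈ M, ∃ r : ℝ, A ≠ B ∧ 0 < r ∧ r ≠ 1 ∧
      {X ∈ M | dist F X = a} = {C ∈ M | dist A C / dist C B = r} := by
  set b := ‖B - F‖ with hb
  have b0 : 0 < b := ha.trans hFB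
  set r := a / b with hr
  have r0 : 0 < r := by positivity
  have r1 : r < 1 := (div_lt_one b0).2 hFB
  have rb : r * b = a := div_mul_cancel₀ _ b0.ne'
  have w2 : r ^ 2 < 1 := by nlinarith
  have hne : F + (r ^ 2) • (B - F) ≠ B := by
    intro h
    have : (1 - r ^ 2) • (B - F) = 0 := by linear_combination (norm := module) -h
    rcases smul_eq_zero.1 this with c | c
    · linarith
    · rw [hb, c] at b0; simp at b0
  refine ⟨F + (r ^ 2) • (B - F), hC.add_smul_sub_mem hF hB ⟨by positivity, w2.le⟩, r, hne, r0, r1.ne, ?_⟩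
  ext X
  simp only [mem_ofPred_eq]
  refine and_congr_right fun _ => ?_
  have key : ‖X - (F + (r ^ 2) • (B - F))‖ ^ 2 - (r * ‖X - B‖) ^ 2 = (1 - r ^ 2) * (‖X - F‖ ^ 2 - a ^ 2) := by
    have e1 : X - (F + (r ^ 2) • (B - F)) = (X - F) - (r ^ 2) • (B - F) := by abel
    have e2 : X - B = (X - F) - (B - F) := by abel
    rw [e1, e2, ← rb, hb, mul_pow, mul_pow]
    generalize X - F = p
    generalize B - F = q
    rw [← e.norm_map p, ← e.norm_map q, ← e.norm_map (p - q), ← e.norm_map (p - _), map_sub, map_sub,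
      map_smul, norm_sub_sq_real, norm_sub_sq_real, inner_smul_right, norm_smul, mul_pow, Real.norm_eq_abs,
      sq_abs]
    ring
  rw [dist_comm F, dist_comm _ X, dist_eq_norm, dist_eq_norm, dist_eq_norm]
  by_cases hXB : X = B
  · subst hXB
    simp only [sub_self, norm_zero, div_zero]
    exact ⟨fun h => absurd h hFB.ne', fun h => absurd h r0.ne⟩
  rw [div_eq_iff (norm_ne_zero_iff.2 (sub_ne_zero.2 hXB)), ← sq_eq_sq₀ (norm_nonneg _) ha.le,
    ← sq_eq_sq₀ (norm_nonneg _) (by positivity), ← sub_eq_zero (a := ‖X - (F + (r ^ 2) • (B - F))‖ ^ 2), key,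
    mul_eq_zero, sub_eq_zero (a := ‖X - F‖ ^ 2)]
  exact ⟨Or.inr, fun h => h.resolve_left (by linarith)⟩

end Pool.Agent.P.MP_874adf_gt
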